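import Pool.Agent.H501R2.BSPCore

/-!
# The fat `k`-flat conjecture for binary space partitions fails for `2 ≤ k ≤ d - 3`
-/

namespace Pool.Agent.Results.MP_ebf3a9_co.FatFlatLower

open Finset Pool.Agent.H501R2.BSPDefs Pool.Agent.H501R2.BSPCore

theorem Valid.anti {d : ℕ} {S S' : Set (Set (Fin d → ℝ))} (h : S ⊆ S') :
    ∀ (t : BSP d) (C : Set (Fin d → ℝ)), t.Valid S' C → t.Valid S C := by
  intro t
  induction t with
  | leaf => exact fun C hv r hr s hs => hv r (h hr) s (h hs)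
  | node i c L R ihL ihR => exact fun C hv => ⟨ihL _ hv.1, ihR _ hv.2⟩

theorem one_le_size {d : ℕ} (t : BSP d) : 1 ≤ t.size := by
  cases t with
  | leaf => exact le_rfl
  | node i c L R => show 1 ≤ 1 + L.size + R.size; omega

/-- the padding boxes -/
def pad {d : ℕ} (K : Finset (Fin d)) (N j : ℕ) : Set (Fin d → ℝ) :=
  Set.Icc (fun _ => (N : ℝ) + 1 + 2 * j)
    (fun i => if i ∈ K then (N : ℝ) + 1 + 2 * j + 1 else (N : ℝ) + 1 + 2 * j)

theorem pad_bounds {d : ℕ} {K : Finset (Fin d)} {N j : ℕ} {z : Fin d → ℝ} (hz : z ∈ pad K N j)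
    (i : Fin d) : (N : ℝ) + 1 + 2 * j ≤ z i ∧ z i ≤ (N : ℝ) + 1 + 2 * j + 1 := by
  refine ⟨hz.1 i, (hz.2 i).trans ?_⟩
  show (if i ∈ K then (N : ℝ) + 1 + 2 * j + 1 else (N : ℝ) + 1 + 2 * j) ≤ _
  split_ifs <;> linarith

theorem pad_nonempty {d : ℕ} (K : Finset (Fin d)) (N j : ℕ) : (pad K N j).Nonempty := by
  refine ⟨fun _ => (N : ℝ) + 1 + 2 * j, fun _ => le_rfl, fun i => ?_⟩
  show _ ≤ (if i ∈ K then (N : ℝ) + 1 + 2 * j + 1 else (N : ℝ) + 1 + 2 * j)
  split_ifs <;> linarith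

theorem pad_fat {d k : ℕ} {α : ℝ} (hα : 1 ≤ α) {K : Finset (Fin d)} (hK : K.card = k) (N j : ℕ) :
    IsFatFlat d k α (pad K N j) := by
  refine ⟨_, _, ?_, rfl, ?_, ?_⟩
  · intro i
    show _ ≤ (if i ∈ K then (N : ℝ) + 1 + 2 * j + 1 else (N : ℝ) + 1 + 2 * j)
    split_ifs <;> linarith
  · rw [← hK]
    congr 1
    ext i
    simp only [mem_filter, mem_univ, true_and]
    constructor
    · intro h
      by_contra hi
      rw [if_neg hi] at h
      exact lt_irrefl _ h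
    · intro h
      rw [if_pos h]; linarith
  · intro i j' hi hj
    have h1 : i ∈ K := by
      by_contra h
      simp only [if_neg h] at hi
      exact lt_irrefl _ hi
    have h2 : j' ∈ K := by
      by_contra h
      simp only [if_neg h] at hj
      exact lt_irrefl _ hj
    simp only [if_pos h1, if_pos h2]
    linarith

theorem flat_nonempty {d : ℕ} (δ : Idx d → ℝ) (A : Finset (Fin d)) (N : ℕ) (x : Idx d) :
    (flat δ A N x).Nonempty := by
  refine ⟨lo δ A x, fun _ => le_rfl, fun i => ?_⟩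
  unfold lo hi
  split_ifs
  · exact le_rfl
  · exact Nat.cast_nonneg _

theorem flat_le {d : ℕ} {δ : Idx d → ℝ} {A : Finset (Fin d)} {k N : ℕ}
    (hδ : ∀ x, 0 < δ x ∧ δ x < 1) {x : Idx d} (hx : x ∈ idx A k N) {z : Fin d → ℝ}
    (hz : z ∈ flat δ A N x) (i : Fin d) : z i ≤ N := by
  refine (hz.2 i).trans ?_
  unfold hi
  split_ifs with h
  · have h1 := (Pool.Agent.H501R2.BSPCore.mem_idx.1 hx).2.1 i (mem_sdiff.1 h).1 (mem_sdiff.1 h).2
    have h2 : ((x.2 i : ℝ) + 1) ≤ N := by exact_mod_cast h1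
    linarith [(hδ x).2]
  · exact le_rfl

theorem flat_fat {d : ℕ} {α : ℝ} (hα : 1 ≤ α) {δ : Idx d → ℝ} {A : Finset (Fin d)} {k N : ℕ}
    (hN : 0 < N) {x : Idx d} (hx : x ∈ idx A k N) :
    IsFatFlat d (d - (A.card - k)) α (flat δ A N x) := by
  have hNpos : (0 : ℝ) < N := Nat.cast_pos.2 hN
  have key : ∀ i, (lo δ A x i < hi δ A N x i ↔ i ∉ A \ x.1) := by
    intro i
    unfold lo hi
    split_ifs with h
    · simp [h]
    · simp [h, hN]
  refine ⟨lo δ A x, hi δ A N x, ?_, rfl, ?_, ?_⟩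
  · intro i
    unfold lo hi
    split_ifs
    · exact le_rfl
    · exact hNpos.le
  · have h1 := Pool.Agent.H501R2.BSPCore.mem_idx.1 hx
    have h2 : (univ.filter (fun i => lo δ A x i < hi δ A N x i)) = univ \ (A \ x.1) := by
      ext i
      simp only [mem_filter, mem_univ, true_and, mem_sdiff]
      rw [key i, mem_sdiff]
    rw [h2, card_sdiff_of_subset (subset_univ _), card_univ, Fintype.card_fin,
      card_sdiff_of_subset h1.1.1, h1.1.2]
  · intro i j hi' hj'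
    have h1 := (key i).1 hi'
    have h2 := (key j).1 hj'
    unfold lo hi
    rw [if_neg h1, if_neg h1, if_neg h2, if_neg h2]
    nlinarith

/-- The family with exactly `n` members. -/
theorem exists_family {d k s D N n : ℕ} {α : ℝ} (hα : 1 ≤ α) (hd : d = k + s) (hsD : s < D)
    (hD : D ≤ d) (hDs : D < 2 * s) (hn : D.choose (D - s) * N ^ s ≤ n) :
    ∃ S : Finset (Set (Fin d → ℝ)), S.card = n ∧
      (S : Set (Set (Fin d → ℝ))).PairwiseDisjoint id ∧ (∀ r ∈ S, IsFatFlat d k α r) ∧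
      ∀ t : BSP d, t.Valid (S : Set (Set (Fin d → ℝ))) Set.univ →
        N ^ D ≤ 2 ^ (D - s) * t.size := by
  classical
  obtain ⟨f, hf⟩ := exists_injective_nat (Idx d)
  set δ : Idx d → ℝ := fun x => 1 / ((f x : ℝ) + 2) with hδdef
  have hδ : ∀ x, 0 < δ x ∧ δ x < 1 := by
    intro x
    have h0 : (0 : ℝ) ≤ f x := Nat.cast_nonneg _
    refine ⟨by positivity, ?_⟩
    rw [hδdef]
    simp only
    rw [div_lt_one (by linarith)]
    linarith
  have hinj : Function.Injective δ := by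
    intro x y h
    apply hf
    have h0 : (0 : ℝ) ≤ f x := Nat.cast_nonneg _
    have h1 : (0 : ℝ) ≤ f y := Nat.cast_nonneg _
    simp only [hδdef] at h
    rw [div_eq_div_iff (by linarith) (by linarith)] at h
    have : (f x : ℝ) = f y := by linarith
    exact_mod_cast this
  obtain ⟨A, -, hA⟩ := exists_subset_card_eq (s := (univ : Finset (Fin d))) (n := D)
    (by simpa using hD)
  obtain ⟨K, -, hK⟩ := exists_subset_card_eq (s := (univ : Finset (Fin d))) (n := k)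
    (by simp; omega)
  have hcard : (idx A (D - s) N).card = D.choose (D - s) * N ^ s := by
    rw [card_idx, hA]
    congr 2; omega
  have hk2 : 2 * (D - s) < A.card := by omega
  have hs : 0 < s := by omega
  have h0d : 0 < d := by omega
  set F : Finset (Set (Fin d → ℝ)) := (idx A (D - s) N).image (flat δ A N) with hF
  set m : ℕ := n - D.choose (D - s) * N ^ s with hm
  set P : Finset (Set (Fin d → ℝ)) := (range m).image (pad K N) with hP
  have hFinj : Set.InjOn (flat δ A N) (idx A (D - s) N : Set (Idx d)) := by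
    intro x hx y hy hxy
    obtain ⟨z, hz⟩ := flat_nonempty δ A N x
    exact flat_disjoint hk2 hδ hinj (Pool.Agent.H501R2.BSPCore.mem_idx.1 (mem_coe.1 hx)).1.2
      (Pool.Agent.H501R2.BSPCore.mem_idx.1 (mem_coe.1 hy)).1.2 hz (hxy ▸ hz)
  have hpad : ∀ j j' : ℕ, ∀ z : Fin d → ℝ, z ∈ pad K N j → z ∈ pad K N j' → j = j' := by
    intro j j' z hz hz'
    have h1 := pad_bounds hz ⟨0, h0d⟩
    have h2 := pad_bounds hz' ⟨0, h0d⟩
    by_contra hne
    rcases Nat.lt_or_gt_of_ne hne with h | h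
    · have : (j : ℝ) + 1 ≤ j' := by exact_mod_cast h
      linarith [h1.2, h2.1]
    · have : (j' : ℝ) + 1 ≤ j := by exact_mod_cast h
      linarith [h1.1, h2.2]
  have hPinj : Set.InjOn (pad K N) (range m : Set ℕ) := by
    intro j _ j' _ hjj
    obtain ⟨z, hz⟩ := pad_nonempty K N j
    exact hpad j j' z hz (hjj ▸ hz)
  have hFP : ∀ r ∈ F, ∀ r' ∈ P, Disjoint r r' := by
    intro r hr r' hr'
    obtain ⟨x, hx, rfl⟩ := mem_image.1 hr
    obtain ⟨j, hj, rfl⟩ := mem_image.1 hr'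
    rw [Set.disjoint_left]
    intro z hz hz'
    have h1 := flat_le hδ hx hz ⟨0, h0d⟩
    have h2 := (pad_bounds hz' ⟨0, h0d⟩).1
    have h3 : (0 : ℝ) ≤ j := Nat.cast_nonneg _
    linarith
  have hne : ∀ r ∈ F ∪ P, r.Nonempty := by
    intro r hr
    rcases mem_union.1 hr with hr | hr
    · obtain ⟨x, hx, rfl⟩ := mem_image.1 hr
      exact flat_nonempty _ _ _ _
    · obtain ⟨j, hj, rfl⟩ := mem_image.1 hr
      exact pad_nonempty _ _ _
  have hdisjFP : Disjoint F P := by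
    rw [Finset.disjoint_left]
    intro r hr hr'
    obtain ⟨z, hz⟩ := hne r (mem_union_left _ hr)
    exact Set.disjoint_left.1 (hFP r hr r hr') hz hz
  refine ⟨F ∪ P, ?_, ?_, ?_, ?_⟩
  · rw [card_union_of_disjoint hdisjFP, hF, hP, card_image_of_injOn hFinj,
      card_image_of_injOn hPinj, hcard, card_range, hm]
    omega
  · intro r hr r' hr' hrr
    have hr := mem_union.1 (mem_coe.1 hr)
    have hr' := mem_union.1 (mem_coe.1 hr')
    show Disjoint r r'
    rcases hr with hr | hr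
    · rcases hr' with hr' | hr'
      · obtain ⟨x, hx, rfl⟩ := mem_image.1 hr
        obtain ⟨y, hy, rfl⟩ := mem_image.1 hr'
        rw [Set.disjoint_left]
        intro z hz hz'
        exact hrr (congrArg _ (flat_disjoint hk2 hδ hinj (Pool.Agent.H501R2.BSPCore.mem_idx.1 hx).1.2
          (Pool.Agent.H501R2.BSPCore.mem_idx.1 hy).1.2 hz hz'))
      · exact hFP r hr r' hr'
    · rcases hr' with hr' | hr'
      · exact (hFP r' hr' r hr).symm
      · obtain ⟨j, hj, rfl⟩ := mem_image.1 hr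
        obtain ⟨j', hj', rfl⟩ := mem_image.1 hr'
        rw [Set.disjoint_left]
        intro z hz hz'
        exact hrr (congrArg _ (hpad j j' z hz hz'))
  · intro r hr
    rcases mem_union.1 hr with hr | hr
    · obtain ⟨x, hx, rfl⟩ := mem_image.1 hr
      have hN : 0 < N := by
        by_contra h
        have h0 : N = 0 := by omega
        have : (idx A (D - s) N).card = 0 := by
          rw [hcard, h0, zero_pow hs.ne', mul_zero]
        rw [card_eq_zero] at this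
        rw [this] at hx
        exact notMem_empty _ hx
      have h := flat_fat (d := d) hα (δ := δ) hN hx
      have h2 : d - (A.card - (D - s)) = k := by omega
      rwa [h2] at h
    · obtain ⟨j, hj, rfl⟩ := mem_image.1 hr
      exact pad_fat hα hK N j
  · intro t ht
    rcases Nat.eq_zero_or_pos N with hN | hN
    · rw [hN, zero_pow (by omega)]; exact Nat.zero_le _
    · have hv : t.Valid (flats δ A (D - s) N) (cell (fun _ => ⊥) (fun _ => ⊤)) := by
        have h1 : cell (d := d) (fun _ => ⊥) (fun _ => ⊤) = Set.univ := by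
          ext y
          simp [cell, EReal.bot_lt_coe, EReal.coe_lt_top]
        rw [h1]
        refine Valid.anti ?_ t _ ht
        rintro r ⟨x, hx, rfl⟩
        exact mem_coe.2 (mem_union_left _ (mem_image_of_mem _ (mem_coe.1 hx)))
      have h2 := count_le hN hk2 hδ hinj t _ _ hv
      have h3 : (grid A N).filter (fun p => Good δ A (D - s) N (fun _ => ⊥) (fun _ => ⊤) p) =
          grid A N := by
        rw [filter_eq_self]
        intro p _
        refine Or.inl ⟨∅, empty_subset _, by simp; omega, by simp, ?_, ?_⟩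
        · intro i _ _
          exact ⟨bot_le, le_top⟩
        · intro i _
          exact ⟨bot_lt_top, EReal.bot_lt_coe _, EReal.coe_lt_top _⟩
      rw [h3, card_grid, hA] at h2
      exact h2

theorem lower {d k s D : ℕ} {α : ℝ} (hα : 1 ≤ α) (hd : d = k + s) (hsD : s < D)
    (hD : D ≤ d) (hDs : D < 2 * s) :
    ∃ c : ℝ, 0 < c ∧ ∀ n : ℕ,
      ((⌈c * (n : ℝ) ^ ((D : ℝ) / (s : ℝ))⌉₊ : ℕ) : ℕ∞) ≤ piPerp d k α n := by
  have hs : 0 < s := by omega
  have hs' : (0 : ℝ) < s := Nat.cast_pos.2 hs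
  set M : ℝ := (D.choose (D - s) : ℝ) with hM
  have hMpos : 0 < M := by
    rw [hM]; exact_mod_cast Nat.choose_pos (by omega)
  refine ⟨(1 / M) ^ ((D : ℝ) / (s : ℝ)) / 2 ^ (D + (D - s)), by positivity, fun n => ?_⟩
  set y : ℝ := ((n : ℝ) / M) ^ ((1 : ℝ) / s) with hy
  have hy0 : 0 ≤ y := by positivity
  have hys : y ^ s = (n : ℝ) / M := by
    rw [hy, ← Real.rpow_natCast, ← Real.rpow_mul (by positivity), one_div_mul_cancel hs'.ne',
      Real.rpow_one]
  have hyD : y ^ D = ((n : ℝ) / M) ^ ((D : ℝ) / s) := by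
    rw [hy, ← Real.rpow_natCast, ← Real.rpow_mul (by positivity)]
    congr 1; ring
  set N : ℕ := ⌊y⌋₊ with hN
  have hNy : (N : ℝ) ≤ y := Nat.floor_le hy0
  have hcount : D.choose (D - s) * N ^ s ≤ n := by
    have h1 : ((N : ℝ)) ^ s ≤ (n : ℝ) / M := by
      rw [← hys]; exact pow_le_pow_left₀ (Nat.cast_nonneg _) hNy s
    have h2 : ((D.choose (D - s) : ℕ) : ℝ) * (N : ℝ) ^ s ≤ n := by
      rw [le_div_iff₀ hMpos, hM] at h1
      linarith
    exact_mod_cast h2
  obtain ⟨S, hS1, hS2, hS3, hS4⟩ := exists_family hα hd hsD hD hDs hcount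
  have hbound : ∀ t : BSP d, t.Valid (S : Set (Set (Fin d → ℝ))) Set.univ →
      (1 / M) ^ ((D : ℝ) / (s : ℝ)) / 2 ^ (D + (D - s)) * (n : ℝ) ^ ((D : ℝ) / (s : ℝ)) ≤
        t.size := by
    intro t ht
    have h1 : (1 / M) ^ ((D : ℝ) / (s : ℝ)) / 2 ^ (D + (D - s)) * (n : ℝ) ^ ((D : ℝ) / (s : ℝ)) =
        y ^ D / 2 ^ (D + (D - s)) := by
      rw [hyD, show (n : ℝ) / M = (1 / M) * n by ring,
        Real.mul_rpow (by positivity) (by positivity)]
      ring
    rw [h1]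
    have hsz : (1 : ℝ) ≤ t.size := by exact_mod_cast one_le_size t
    rcases lt_or_ge y 1 with hy1 | hy1
    · have h2 : y ^ D ≤ 1 := pow_le_one₀ hy0 hy1.le
      have h3 : (1 : ℝ) ≤ 2 ^ (D + (D - s)) := one_le_pow₀ (by norm_num)
      calc y ^ D / 2 ^ (D + (D - s)) ≤ 1 := by
            rw [div_le_one (by positivity)]; linarith
        _ ≤ t.size := hsz
    · have h2 : y / 2 ≤ N := by
        have h3 : y < N + 1 := Nat.lt_floor_add_one y
        have h4 : (1 : ℝ) ≤ N := by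
          have : 1 ≤ N := Nat.le_floor (by exact_mod_cast hy1)
          exact_mod_cast this
        linarith
      have h3 : (y / 2) ^ D ≤ (N : ℝ) ^ D := pow_le_pow_left₀ (by linarith) h2 D
      have h4 : ((N : ℝ)) ^ D ≤ 2 ^ (D - s) * t.size := by exact_mod_cast hS4 t ht
      rw [div_le_iff₀ (by positivity), pow_add]
      rw [div_pow, div_le_iff₀ (by positivity)] at h3
      calc y ^ D ≤ (N : ℝ) ^ D * 2 ^ D := h3
        _ ≤ 2 ^ (D - s) * t.size * 2 ^ D := by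
            exact mul_le_mul_of_nonneg_right h4 (by positivity)
        _ = t.size * (2 ^ D * 2 ^ (D - s)) := by ring
  unfold piPerp
  refine le_trans ?_ (le_iSup₂ (f := fun (S : Finset (Set (Fin d → ℝ)))
    (_ : S ∈ {S : Finset (Set (Fin d → ℝ)) | S.card = n ∧
      (S : Set (Set (Fin d → ℝ))).PairwiseDisjoint id ∧ ∀ r ∈ S, IsFatFlat d k α r}) =>
    ⨅ t ∈ {t : BSP d | t.Valid (S : Set (Set (Fin d → ℝ))) Set.univ}, (t.size : ℕ∞)) S
    ⟨hS1, hS2, hS3⟩)
  refine le_iInf₂ fun t ht => ?_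
  have h5 : ⌈(1 / M) ^ ((D : ℝ) / (s : ℝ)) / 2 ^ (D + (D - s)) *
      (n : ℝ) ^ ((D : ℝ) / (s : ℝ))⌉₊ ≤ t.size := Nat.ceil_le.2 (hbound t ht)
  exact_mod_cast h5

theorem growth {s D : ℕ} (hs : 0 < s) (hD : s + 2 ≤ D) {c : ℝ} (hc : 0 < c) (C : ℝ) (m : ℕ) :
    ∀ᶠ x : ℝ in Filter.atTop,
      |C| * x ^ (((s : ℝ) + 1) / s) * Real.log x ^ m + 1 < c * x ^ ((D : ℝ) / s) := by
  have hs' : (0 : ℝ) < s := Nat.cast_pos.2 hs
  have hlog := isLittleO_log_rpow_rpow_atTop (s := 1 / (2 * s)) (m : ℝ) (by positivity)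
  have h1 := hlog.bound (one_pos)
  have h2 : Filter.Tendsto (fun x : ℝ => x ^ ((1 : ℝ) / (2 * s))) Filter.atTop Filter.atTop :=
    tendsto_rpow_atTop (by positivity)
  have h3 := h2.eventually_gt_atTop ((|C| + 1) / c)
  filter_upwards [h1, h3, Filter.eventually_ge_atTop (1 : ℝ)] with x hx1 hx2 hx3
  have hx0 : (0 : ℝ) < x := by linarith
  have hlog0 : 0 ≤ Real.log x := Real.log_nonneg hx3
  have hl : Real.log x ^ m ≤ x ^ ((1 : ℝ) / (2 * s)) := by
    rw [one_mul, Real.norm_of_nonneg (by positivity), Real.norm_of_nonneg (by positivity),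
      Real.rpow_natCast] at hx1
    exact hx1
  have e1 : x ^ (((s : ℝ) + 1) / s) * x ^ ((1 : ℝ) / (2 * s)) =
      x ^ (((s : ℝ) + 3 / 2) / s) := by
    rw [← Real.rpow_add hx0]
    congr 1
    field_simp
    ring
  have e2 : x ^ (((s : ℝ) + 3 / 2) / s) * x ^ ((1 : ℝ) / (2 * s)) =
      x ^ (((s : ℝ) + 2) / s) := by
    rw [← Real.rpow_add hx0]
    congr 1
    field_simp
    ring
  have e3 : x ^ (((s : ℝ) + 2) / s) ≤ x ^ ((D : ℝ) / s) := by
    apply Real.rpow_le_rpow_of_exponent_le hx3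
    have : (s : ℝ) + 2 ≤ D := by exact_mod_cast hD
    exact div_le_div_of_nonneg_right this hs'.le
  have e4 : 1 ≤ x ^ (((s : ℝ) + 3 / 2) / s) := Real.one_le_rpow hx3 (by positivity)
  have e5 : |C| + 1 < c * x ^ ((1 : ℝ) / (2 * s)) := by
    rw [div_lt_iff₀ hc] at hx2
    linarith
  have hC : 0 ≤ |C| := abs_nonneg C
  calc |C| * x ^ (((s : ℝ) + 1) / s) * Real.log x ^ m + 1
      ≤ |C| * x ^ (((s : ℝ) + 1) / s) * x ^ ((1 : ℝ) / (2 * s)) +
          x ^ (((s : ℝ) + 3 / 2) / s) := by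
        gcongr
    _ = (|C| + 1) * x ^ (((s : ℝ) + 3 / 2) / s) := by
        rw [mul_assoc, e1]; ring
    _ < c * x ^ ((1 : ℝ) / (2 * s)) * x ^ (((s : ℝ) + 3 / 2) / s) := by
        apply mul_lt_mul_of_pos_right e5 (by linarith)
    _ = c * x ^ (((s : ℝ) + 2) / s) := by
        rw [mul_assoc, mul_comm (x ^ ((1 : ℝ) / (2 * s))), e2]
    _ ≤ c * x ^ ((D : ℝ) / s) := by
        apply mul_le_mul_of_nonneg_left e3 hc.le

/-- For all `k ≥ 2`, `d ≥ k + 3` and `α ≥ 1`:
there is `c > 0` such that `π_⊥(n) ≥ c n^{min(d, 2(d-k)-1)/(d-k)}` for all `n`, and hence for all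
`C`, `m` one has `π_⊥(n) > C n^{(d-k+1)/(d-k)} (log n)^m` for all large `n`. -/
theorem result (k d : ℕ) (hk : 2 ≤ k) (hd : k + 3 ≤ d) (α : ℝ) (hα : 1 ≤ α) :
    (∃ c : ℝ, 0 < c ∧ ∀ n : ℕ,
      ((⌈c * (n : ℝ) ^ (((min d (2 * (d - k) - 1) : ℕ) : ℝ) / ((d - k : ℕ) : ℝ))⌉₊ : ℕ) : ℕ∞) ≤
        piPerp d k α n) ∧
    ∀ (C : ℝ) (m : ℕ), ∀ᶠ n : ℕ in Filter.atTop,
      ((⌈C * (n : ℝ) ^ (((d - k + 1 : ℕ) : ℝ) / ((d - k : ℕ) : ℝ)) * Real.log n ^ m⌉₊ : ℕ) : ℕ∞) <
        piPerp d k α n := by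
  obtain ⟨s, rfl⟩ : ∃ s, d = k + s := ⟨d - k, by omega⟩
  have hs3 : 3 ≤ s := by omega
  have hsub : k + s - k = s := by omega
  rw [hsub]
  set D : ℕ := min (k + s) (2 * s - 1) with hDdef
  have hD1 : D ≤ k + s := min_le_left _ _
  have hD2 : D ≤ 2 * s - 1 := min_le_right _ _
  have hD3 : s + 2 ≤ D := le_min (by omega) (by omega)
  obtain ⟨c, hc, hlow⟩ := lower (d := k + s) (k := k) (s := s) (D := D) hα rfl (by omega) hD1
    (by omega)
  refine ⟨⟨c, hc, hlow⟩, fun C m => ?_⟩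
  have hg := growth (s := s) (D := D) (by omega) hD3 hc C m
  have hg' := tendsto_natCast_atTop_atTop.eventually hg
  filter_upwards [hg', Filter.eventually_ge_atTop 1] with n hn hn1
  refine lt_of_lt_of_le ?_ (hlow n)
  have hn1' : (1 : ℝ) ≤ n := by exact_mod_cast hn1
  have hlog0 : 0 ≤ Real.log n := Real.log_nonneg hn1'
  have h1 : C * (n : ℝ) ^ (((s + 1 : ℕ) : ℝ) / (s : ℝ)) * Real.log n ^ m ≤
      |C| * (n : ℝ) ^ (((s : ℝ) + 1) / s) * Real.log n ^ m := by
    push_cast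
    gcongr
    exact le_abs_self C
  have h2 : ((⌈C * (n : ℝ) ^ (((s + 1 : ℕ) : ℝ) / (s : ℝ)) * Real.log n ^ m⌉₊ : ℕ) : ℝ) <
      ((⌈c * (n : ℝ) ^ ((D : ℝ) / (s : ℝ))⌉₊ : ℕ) : ℝ) := by
    have h3 : ((⌈C * (n : ℝ) ^ (((s + 1 : ℕ) : ℝ) / (s : ℝ)) * Real.log n ^ m⌉₊ : ℕ) : ℝ) <
        |C| * (n : ℝ) ^ (((s : ℝ) + 1) / s) * Real.log n ^ m + 1 := by
      refine lt_of_le_of_lt ?_ (Nat.ceil_lt_add_one (by positivity))
      exact_mod_cast Nat.ceil_le_ceil h1
    exact (h3.trans hn).trans_le (Nat.le_ceil _)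
  exact_mod_cast h2

end Pool.Agent.Results.MP_ebf3a9_co.FatFlatLower
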